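import Pool.Agent.Helper58.DM.Goals

/-!
# Project DM, packet K_GW: the condition on `W`, the components, the sizes
-/

set_option autoImplicit false

namespace Pool.Agent.Helper13.DM

open Matrix Pool.Agent.Helper58.DH Pool.Agent.Helper58.DM ComplexConjugate

section

variable {I : Type} (F : Frame I)

theorem bar_eq {F : Frame I} {a b : I} : F.bar a = b ↔ a = F.bar b := by
  constructor
  · rintro rfl
    rw [F.bar_bar]
  · rintro rfl
    rw [F.bar_bar]

variable [DecidableEq I]

/-- `z E_ij - conj z E_ji` -/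
noncomputable def e0 (i j : I) (z : ℂ) : Matrix I I ℂ := fun a b ↦
  (if a = i ∧ b = j then z else 0) - (if a = j ∧ b = i then conj z else 0)

/-- `z E_ij - conj z E_ji` and its image under the involution -/
noncomputable def el (i j : I) (z : ℂ) : Matrix I I ℂ := fun a b ↦
  e0 i j z a b - ((F.sg a * F.sg b : ℝ) : ℂ) * e0 i j z (F.bar b) (F.bar a)

theorem e0_conj (i j : I) (z : ℂ) (a b : I) : conj (e0 i j z b a) = -e0 i j z a b := by
  unfold e0
  by_cases h1 : a = i ∧ b = j
  · by_cases h2 : a = j ∧ b = i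
    · simp [h1.1, h1.2, h2.1.symm.trans h1.1]
    · have h3 : ¬ (b = i ∧ a = j) := fun h ↦ h2 ⟨h.2, h.1⟩
      rw [if_neg h3, if_pos ⟨h1.2, h1.1⟩, if_pos h1, if_neg h2]
      simp
  · by_cases h2 : a = j ∧ b = i
    · have h3 : ¬ (b = j ∧ a = i) := fun h ↦ h1 ⟨h.2, h.1⟩
      rw [if_pos ⟨h2.2, h2.1⟩, if_neg h3, if_neg h1, if_pos h2]
      simp
    · have h3 : ¬ (b = i ∧ a = j) := fun h ↦ h2 ⟨h.2, h.1⟩
      have h4 : ¬ (b = j ∧ a = i) := fun h ↦ h1 ⟨h.2, h.1⟩
      rw [if_neg h3, if_neg h4, if_neg h1, if_neg h2]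
      simp

theorem el_skew (i j : I) (z : ℂ) : (el F i j z)ᴴ = -el F i j z := by
  ext a b
  rw [Matrix.conjTranspose_apply, Matrix.neg_apply]
  show conj (e0 i j z b a - ((F.sg b * F.sg a : ℝ) : ℂ) * e0 i j z (F.bar a) (F.bar b)) =
    -(e0 i j z a b - ((F.sg a * F.sg b : ℝ) : ℂ) * e0 i j z (F.bar b) (F.bar a))
  rw [map_sub, map_mul, e0_conj, e0_conj, Complex.conj_ofReal, mul_comm (F.sg b)]
  ring

theorem sb (c d : I) : F.sg (F.bar c) * F.sg (F.bar d) = F.sg c * F.sg d := by
  rw [F.sg_bar, F.sg_bar]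
  linear_combination F.sg c * F.sg d * F.η_sq

theorem s2 (c d : I) : ((F.sg c * F.sg d : ℝ) : ℂ) * ((F.sg c * F.sg d : ℝ) : ℂ) = 1 := by
  rw [← Complex.ofReal_mul]
  have : F.sg c * F.sg d * (F.sg c * F.sg d) = 1 := by
    linear_combination F.sg d * F.sg d * F.sg_sq c + F.sg_sq d
  rw [this, Complex.ofReal_one]

theorem el_th (i j : I) (z : ℂ) : Th F (el F i j z) := by
  intro a b
  unfold el
  rw [F.bar_bar, F.bar_bar, sb, mul_comm (F.sg b)]
  linear_combination -(e0 i j z (F.bar b) (F.bar a)) * s2 F a b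

theorem el_supp {i j : I} {z : ℂ} {a b : I} (h : el F i j z a b ≠ 0) :
    (a = i ∧ b = j) ∨ (a = j ∧ b = i) ∨ (a = F.bar j ∧ b = F.bar i) ∨ (a = F.bar i ∧ b = F.bar j) := by
  by_contra hcon
  push Not at hcon
  obtain ⟨h1, h2, h3, h4⟩ := hcon
  apply h
  unfold el e0
  have k1 : ¬ (a = i ∧ b = j) := fun ⟨p, q⟩ ↦ h1 p q
  have k2 : ¬ (a = j ∧ b = i) := fun ⟨p, q⟩ ↦ h2 p q
  have k3 : ¬ (F.bar b = i ∧ F.bar a = j) := fun ⟨p, q⟩ ↦ h3 (bar_eq.1 q) (bar_eq.1 p)
  have k4 : ¬ (F.bar b = j ∧ F.bar a = i) := fun ⟨p, q⟩ ↦ h4 (bar_eq.1 q) (bar_eq.1 p)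
  rw [if_neg k1, if_neg k2, if_neg k3, if_neg k4]
  simp

variable [Fintype I]

theorem cls_facts : ∀ A B : Fin 5, cls A B = cls B A ∧ cls (bar5 A) (bar5 B) = cls A B ∧
    cls A A = none := by decide

/-- elements of `𝔪_c` -/
theorem full_aux (hE : M_ENT) (hk : 0 < kk F) {c : Fin 6} {i j : I}
    (hc : cls (F.bl i) (F.bl j) = some c) (hne : el F i j 1 i j ≠ 0) :
    ∃ X ∈ fm F, Pool.Agent.Helper58.DM.comp F c X = X ∧ X ≠ 0 := by
  have key : ∀ a b, el F i j 1 a b ≠ 0 → cls (F.bl a) (F.bl b) = some c := by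
    intro a b h
    rcases el_supp F h with ⟨rfl, rfl⟩ | ⟨rfl, rfl⟩ | ⟨rfl, rfl⟩ | ⟨rfl, rfl⟩
    · exact hc
    · rw [(cls_facts _ _).1, hc]
    · rw [F.bl_bar, F.bl_bar, (cls_facts _ _).2.1, (cls_facts _ _).1, hc]
    · rw [F.bl_bar, F.bl_bar, (cls_facts _ _).2.1, hc]
  refine ⟨el F i j 1, ((hE I F hk).2.1 _).2 ⟨⟨el_skew F i j 1, el_th F i j 1⟩, ?_⟩, ?_, ?_⟩
  · intro a b hab
    by_contra h
    have h1 := key a b h
    rw [hab, (cls_facts _ (F.bl b)).2.2] at h1
    cases h1
  · ext a b
    unfold Pool.Agent.Helper58.DM.comp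
    split_ifs with h
    · rfl
    · by_contra h'
      exact h (key a b (Ne.symm h'))
  · intro h
    exact hne (by rw [h]; rfl)

/-- elements of `𝔨` in the block `W` -/
theorem el_fk (hE : M_ENT) (hk : 0 < kk F) {i j : I} (hi : F.bl i = 4) (hj : F.bl j = 4) (z : ℂ) :
    el F i j z ∈ fk F := by
  refine ⟨((hE I F hk).1 _).2 ⟨el_skew F i j z, el_th F i j z⟩, fun a b hab ↦ ?_⟩
  by_contra h
  have hb : ∀ c, F.bl c = 4 → F.bl (F.bar c) = 4 := fun c hc ↦ by
    rw [F.bl_bar, hc]
    rfl
  rcases el_supp F h with ⟨rfl, rfl⟩ | ⟨rfl, rfl⟩ | ⟨rfl, rfl⟩ | ⟨rfl, rfl⟩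
  · exact hab (hi.trans hj.symm)
  · exact hab (hj.trans hi.symm)
  · exact hab ((hb _ hj).trans (hb _ hi).symm)
  · exact hab ((hb _ hi).trans (hb _ hj).symm)

theorem comm_entry {Z X : Matrix I I ℂ} (h : ⁅Z, X⁆ = 0) (a b : I) :
    ∑ c, Z a c * X c b = ∑ c, X a c * Z c b := by
  rw [Ring.lie_def, sub_eq_zero] at h
  have := congrFun (congrFun h a) b
  rwa [Matrix.mul_apply, Matrix.mul_apply] at this

/-- the symplectic case -/
theorem gw_sp (hE : M_ENT) (hk : 0 < kk F) (hη : F.η = -1) (hbar : ∀ a, F.bl a = 4 → F.bar a ≠ a) :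
    GoodW F := by
  intro Z hZ hsupp hcomm
  have hth := (((hE I F hk).1 Z).1 hZ).2
  have hoff : ∀ a b, F.bl a = 4 → b ≠ a → Z a b = 0 := by
    intro a b ha hab
    have h := comm_entry (hcomm _ (el_fk F hE hk ha ha Complex.I)) a b
    have e1 : ∑ c, Z a c * el F a a Complex.I c b =
        Z a b * (if b = F.bar a then -(2 * Complex.I) else 0) := by
      rw [Finset.sum_eq_single b]
      · congr 1
        unfold el e0
        rw [if_neg (fun h ↦ hab h.1), if_neg (fun h ↦ hab h.1)]
        by_cases hb : b = F.bar a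
        · have hb' : F.bar b = a := bar_eq.2 hb
          rw [if_pos ⟨hb', hb'⟩, if_pos ⟨hb', hb'⟩, if_pos hb, F.sg_sq]
          simp
          ring
        · have hb' : ¬ (F.bar b = a ∧ F.bar b = a) := fun h ↦ hb (bar_eq.1 h.1)
          rw [if_neg hb', if_neg hb', if_neg hb]
          simp
      · intro c _ hc
        have : el F a a Complex.I c b = 0 := by
          by_contra hne
          rcases el_supp F hne with ⟨h1, h2⟩ | ⟨h1, h2⟩ | ⟨h1, h2⟩ | ⟨h1, h2⟩
          · exact hab h2
          · exact hab h2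
          · exact hc (h1.trans h2.symm)
          · exact hc (h1.trans h2.symm)
        rw [this, mul_zero]
      · intro h
        exact absurd (Finset.mem_univ b) h
    have e2 : ∑ c, el F a a Complex.I a c * Z c b = 2 * Complex.I * Z a b := by
      rw [Finset.sum_eq_single a]
      · congr 1
        unfold el e0
        rw [if_pos ⟨rfl, rfl⟩, if_pos ⟨rfl, rfl⟩, if_neg (fun h ↦ hbar a ha h.1),
          if_neg (fun h ↦ hbar a ha h.1)]
        simp
        ring
      · intro c _ hc
        have : el F a a Complex.I a c = 0 := by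
          by_contra hne
          rcases el_supp F hne with ⟨h1, h2⟩ | ⟨h1, h2⟩ | ⟨h1, h2⟩ | ⟨h1, h2⟩
          · exact hc h2
          · exact hc h2
          · exact hc (h2.trans h1.symm)
          · exact hc (h2.trans h1.symm)
        rw [this, zero_mul]
      · intro h
        exact absurd (Finset.mem_univ a) h
    rw [e1, e2] at h
    have hI := Complex.I_ne_zero
    by_cases hb : b = F.bar a
    · rw [if_pos hb] at h
      have : (4 * Complex.I) * Z a b = 0 := by linear_combination -h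
      exact (mul_eq_zero.1 this).resolve_left (by simp)
    · rw [if_neg hb, mul_zero] at h
      exact (mul_eq_zero.1 h.symm).resolve_left (by simp)
  have hdiag : ∀ a, F.bl a = 4 → Z a a = 0 := by
    intro a ha
    have hba : F.bl (F.bar a) = 4 := by
      rw [F.bl_bar, ha]
      rfl
    have h := comm_entry (hcomm _ (el_fk F hE hk ha hba 1)) a (F.bar a)
    rw [Finset.sum_eq_single a, Finset.sum_eq_single (F.bar a)] at h
    · have e : el F a (F.bar a) 1 a (F.bar a) = 2 := by
        unfold el e0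
        rw [F.bar_bar, if_pos ⟨rfl, rfl⟩, if_neg (fun h ↦ hbar a ha h.1.symm), F.sg_bar, hη]
        have : F.sg a * (-1 * F.sg a) = -1 := by linear_combination -F.sg_sq a
        rw [this]
        norm_num
      rw [e] at h
      have h2 := hth a a
      rw [F.sg_sq] at h2
      rw [h2] at h
      push_cast at h
      have : Z a a * 4 = 0 := by linear_combination h
      exact (mul_eq_zero.1 this).resolve_right (by norm_num)
    · intro c _ hc
      by_cases hc' : F.bl c = 4
      · rw [hoff c (F.bar a) hc' (Ne.symm hc), mul_zero]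
      · have : Z c (F.bar a) = 0 := by
          by_contra hne
          exact hc' (hsupp _ _ hne).1
        rw [this, mul_zero]
    · intro h
      exact absurd (Finset.mem_univ _) h
    · intro c _ hc
      rw [hoff a c ha hc, zero_mul]
    · intro h
      exact absurd (Finset.mem_univ _) h
  ext a b
  rw [Matrix.zero_apply]
  by_contra hne
  have ha := (hsupp a b hne).1
  by_cases hab : b = a
  · rw [hab] at hne
    exact hne (hdiag a ha)
  · exact hne (hoff a b ha hab)

/-- the orthogonal case -/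
theorem gw_so (hE : M_ENT) (hk : 0 < kk F) (hsg : ∀ a, F.sg a = 1)
    (hbar : ∀ a, F.bl a = 4 → F.bar a = a)
    (h3 : ∀ a b, F.bl a = 4 → F.bl b = 4 → a ≠ b → ∃ c, F.bl c = 4 ∧ c ≠ a ∧ c ≠ b) :
    GoodW F := by
  intro Z hZ hsupp hcomm
  have hth := (((hE I F hk).1 Z).1 hZ).2
  ext a b
  rw [Matrix.zero_apply]
  by_contra hne
  obtain ⟨ha, hb⟩ := hsupp a b hne
  by_cases hab : a = b
  · subst hab
    have h := hth a a
    rw [hbar a ha, hsg a] at h
    push_cast at h
    have : Z a a * 2 = 0 := by linear_combination h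
    exact hne ((mul_eq_zero.1 this).resolve_right (by norm_num))
  · obtain ⟨c, hc, hca, hcb⟩ := h3 a b ha hb hab
    have h := comm_entry (hcomm _ (el_fk F hE hk hb hc 1)) a c
    have e2 : ∑ d, el F b c 1 a d * Z d c = 0 := by
      refine Finset.sum_eq_zero fun d _ ↦ ?_
      have : el F b c 1 a d = 0 := by
        by_contra hne'
        rcases el_supp F hne' with ⟨h1, h2⟩ | ⟨h1, h2⟩ | ⟨h1, h2⟩ | ⟨h1, h2⟩
        · exact hab h1
        · exact hca h1.symm
        · rw [hbar c hc] at h1
          exact hca h1.symm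
        · rw [hbar b hb] at h1
          exact hab h1
      rw [this, zero_mul]
    rw [e2, Finset.sum_eq_single b] at h
    · have e : el F b c 1 b c = 2 := by
        unfold el e0
        rw [hbar b hb, hbar c hc, if_pos ⟨rfl, rfl⟩, if_neg (fun h ↦ hcb h.2), hsg, hsg,
          if_neg (fun h ↦ hcb h.1), if_pos ⟨rfl, rfl⟩]
        norm_num
      rw [e] at h
      exact hne ((mul_eq_zero.1 h).resolve_right (by norm_num))
    · intro d _ hd
      have : el F b c 1 d c = 0 := by
        by_contra hne'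
        rcases el_supp F hne' with ⟨h1, h2⟩ | ⟨h1, h2⟩ | ⟨h1, h2⟩ | ⟨h1, h2⟩
        · exact hd h1
        · exact hcb h2
        · rw [hbar b hb] at h2
          exact hcb h2
        · rw [hbar b hb] at h1
          exact hd h1
      rw [this, mul_zero]
    · intro h
      exact absurd (Finset.mem_univ _) h

end

/-- **K_GW**. -/
theorem k_gw (hE : M_ENT) : K_GW := by
  constructor
  · intro p q m hp hq hm hm2
    have hkk : 0 < kk (FD p q m) := by
      unfold kk
      have h1 : (FD p q m).η = 1 := rfl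
      rw [h1]
      simp only [Fintype.card_sum, Fintype.card_fin]
      push_cast
      have : (2 : ℝ) ≤ p := by exact_mod_cast hp
      have : (2 : ℝ) ≤ q := by exact_mod_cast hq
      have : (1 : ℝ) ≤ m := by exact_mod_cast hm
      linarith
    refine ⟨?_, ?_, ?_, hkk⟩
    · refine gw_so _ hE hkk (fun _ ↦ rfl) ?_ ?_
      · rintro ((i | i) | ((i | i) | i)) h
        · exact absurd h (show ¬ (_ : Fin 5) = 4 by simp [FD])
        · exact absurd h (show ¬ (_ : Fin 5) = 4 by simp [FD])
        · exact absurd h (show ¬ (_ : Fin 5) = 4 by simp [FD])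
        · exact absurd h (show ¬ (_ : Fin 5) = 4 by simp [FD])
        · rfl
      · rintro ((i | i) | ((i | i) | i)) b h hb hab
        · exact absurd h (show ¬ (_ : Fin 5) = 4 by simp [FD])
        · exact absurd h (show ¬ (_ : Fin 5) = 4 by simp [FD])
        · exact absurd h (show ¬ (_ : Fin 5) = 4 by simp [FD])
        · exact absurd h (show ¬ (_ : Fin 5) = 4 by simp [FD])
        rcases b with ((j | j) | ((j | j) | j))
        · exact absurd hb (show ¬ (_ : Fin 5) = 4 by simp [FD])
        · exact absurd hb (show ¬ (_ : Fin 5) = 4 by simp [FD])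
        · exact absurd hb (show ¬ (_ : Fin 5) = 4 by simp [FD])
        · exact absurd hb (show ¬ (_ : Fin 5) = 4 by simp [FD])
        have hij : i ≠ j := fun h ↦ hab (by rw [h])
        have h3 : 2 < Fintype.card (Fin m) := by
          have h1 : 1 < Fintype.card (Fin m) := Fintype.one_lt_card_iff.2 ⟨i, j, hij⟩
          rw [Fintype.card_fin] at h1 ⊢
          omega
        obtain ⟨k, hk⟩ := Finset.exists_mem_notMem_of_card_lt_card (s := {i, j}) (t := Finset.univ)
          (by rw [Finset.card_univ]; exact (Finset.card_le_two).trans_lt h3)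
        refine ⟨Sum.inr (Sum.inr k), rfl, ?_, ?_⟩
        · intro h
          have : k = i := by simpa using h
          exact hk.2 (by simp [this])
        · intro h
          have : k = j := by simpa using h
          exact hk.2 (by simp [this])
    · intro c
      have p0 : 0 < p := by omega
      have p1 : 1 < p := by omega
      have q0 : 0 < q := by omega
      have q1 : 1 < q := by omega
      have m0 : 0 < m := by omega
      fin_cases c
      · exact full_aux (i := Sum.inl (Sum.inl ⟨0, p0⟩)) (j := Sum.inr (Sum.inl (Sum.inl ⟨0, q0⟩)))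
          _ hE hkk rfl (by simp [el, e0, FD])
      · exact full_aux (i := Sum.inl (Sum.inl ⟨0, p0⟩)) (j := Sum.inr (Sum.inl (Sum.inr ⟨0, q0⟩)))
          _ hE hkk rfl (by simp [el, e0, FD])
      · exact full_aux (i := Sum.inl (Sum.inl ⟨0, p0⟩)) (j := Sum.inl (Sum.inr ⟨1, p1⟩))
          _ hE hkk rfl (by simp [el, e0, FD])
      · exact full_aux (i := Sum.inr (Sum.inl (Sum.inl ⟨0, q0⟩)))
          (j := Sum.inr (Sum.inl (Sum.inr ⟨1, q1⟩))) _ hE hkk rfl (by simp [el, e0, FD])
      · exact full_aux (i := Sum.inl (Sum.inl ⟨0, p0⟩)) (j := Sum.inr (Sum.inr ⟨0, m0⟩))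
          _ hE hkk rfl (by simp [el, e0, FD])
      · exact full_aux (i := Sum.inr (Sum.inl (Sum.inl ⟨0, q0⟩))) (j := Sum.inr (Sum.inr ⟨0, m0⟩))
          _ hE hkk rfl (by simp [el, e0, FD])
    · refine ⟨?_, by omega, by omega, by omega, ?_, ?_⟩
      · intro b
        rw [Finset.card_filter]
        fin_cases b <;> simp [Fintype.sum_sum_type, FD]
      · have h1 : (FD p q m).η = 1 := rfl
        rw [h1]
        have : (2 : ℝ) ≤ p := by exact_mod_cast hp
        linarith
      · have h1 : (FD p q m).η = 1 := rfl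
        rw [h1]
        have : (2 : ℝ) ≤ q := by exact_mod_cast hq
        linarith
  · intro p q r hp hq hr
    have hkk : 0 < kk (FC p q r) := by
      unfold kk
      have h1 : (FC p q r).η = -1 := rfl
      rw [h1]
      have : (0 : ℝ) ≤ (Fintype.card ((Fin p ⊕ Fin p) ⊕ ((Fin q ⊕ Fin q) ⊕ (Fin r ⊕ Fin r))) : ℝ) :=
        Nat.cast_nonneg _
      linarith
    refine ⟨?_, ?_, ?_, hkk⟩
    · refine gw_sp _ hE hkk rfl ?_
      rintro ((i | i) | ((i | i) | (i | i))) h <;> simp [FC]
    · intro c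
      have p0 : 0 < p := by omega
      have q0 : 0 < q := by omega
      have r0 : 0 < r := by omega
      fin_cases c
      · exact full_aux (i := Sum.inl (Sum.inl ⟨0, p0⟩)) (j := Sum.inr (Sum.inl (Sum.inl ⟨0, q0⟩)))
          _ hE hkk rfl (by simp [el, e0, FC])
      · exact full_aux (i := Sum.inl (Sum.inl ⟨0, p0⟩)) (j := Sum.inr (Sum.inl (Sum.inr ⟨0, q0⟩)))
          _ hE hkk rfl (by simp [el, e0, FC])
      · exact full_aux (i := Sum.inl (Sum.inl ⟨0, p0⟩)) (j := Sum.inl (Sum.inr ⟨0, p0⟩))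
          _ hE hkk rfl (by simp [el, e0, FC])
      · exact full_aux (i := Sum.inr (Sum.inl (Sum.inl ⟨0, q0⟩)))
          (j := Sum.inr (Sum.inl (Sum.inr ⟨0, q0⟩))) _ hE hkk rfl (by simp [el, e0, FC])
      · exact full_aux (i := Sum.inl (Sum.inl ⟨0, p0⟩)) (j := Sum.inr (Sum.inr (Sum.inl ⟨0, r0⟩)))
          _ hE hkk rfl (by simp [el, e0, FC])
      · exact full_aux (i := Sum.inr (Sum.inl (Sum.inl ⟨0, q0⟩)))
          (j := Sum.inr (Sum.inr (Sum.inl ⟨0, r0⟩))) _ hE hkk rfl (by simp [el, e0, FC])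
    · refine ⟨?_, by omega, by omega, by omega, ?_, ?_⟩
      · intro b
        rw [Finset.card_filter]
        fin_cases b <;> simp [Fintype.sum_sum_type, FC]
        omega
      · have h1 : (FC p q r).η = -1 := rfl
        rw [h1]
        have : (0 : ℝ) ≤ p := Nat.cast_nonneg _
        linarith
      · have h1 : (FC p q r).η = -1 := rfl
        rw [h1]
        have : (0 : ℝ) ≤ q := Nat.cast_nonneg _
        linarith

end Pool.Agent.Helper13.DM
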